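import Pool.Agent.R579.DrazinDefs

/-!
# Q2: the completion is Drazin invertible when only `A` is weakened

`N = N(A^p)`, `K₀ = R(B^p)`. The operator `M_C` leaves `V₁ = N ⊕ 0` and `V₂ = H ⊕ K₀` invariant, it
is nilpotent on `V₁` and modulo `V₂`, and it is bijective on `V₂ / V₁`: if `M_C (x, y)` is in `V₁`,
`y` in `K₀`, then `y` is in `T`, and `C y` is in `S` and in the orthogonal complement of `S`; and
`S` with its orthogonal complement, the image of `T` under `C`, is everything. So the ascent and the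
descent of `M_C` are at most `2 p`. Neither condition (iii) nor the left Drazin invertibility of
`A` is used.
-/

set_option autoImplicit false

namespace Pool.Agent.Results.MP_632fda_an.CompletionRightDrazin

open Pool.Agent.R579.Drazin Submodule

variable {H K : Type} [NormedAddCommGroup H] [InnerProductSpace ℂ H] [CompleteSpace H]
  [NormedAddCommGroup K] [InnerProductSpace ℂ K]

/-- iteration of the injectivity modulo a subspace -/
lemma inj_iter {E : Type} [NormedAddCommGroup E] [NormedSpace ℂ E] {M : E →L[ℂ] E}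
    {V1 V2 : Submodule ℂ E} (h2 : ∀ z ∈ V2, M z ∈ V2) (h3 : ∀ z ∈ V2, M z ∈ V1 → z ∈ V1) (j : ℕ) :
    ∀ z ∈ V2, (M ^ j) z ∈ V1 → z ∈ V1 := by
  induction j with
  | zero => intro z _ hz; exact hz
  | succ j ih =>
    intro z hz hj
    rw [pow_succ_apply'] at hj
    exact h3 z hz (ih _ (h2 z hz) hj)

/-- iteration of the surjectivity modulo a subspace -/
lemma surj_iter {E : Type} [NormedAddCommGroup E] [NormedSpace ℂ E] {M : E →L[ℂ] E}
    {V1 V2 : Submodule ℂ E} (h1 : ∀ z ∈ V1, M z ∈ V1)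
    (h4 : ∀ w ∈ V2, ∃ z ∈ V2, M z - w ∈ V1) (j : ℕ) :
    ∀ w ∈ V2, ∃ z ∈ V2, (M ^ j) z - w ∈ V1 := by
  have h1' : ∀ (j : ℕ), ∀ z ∈ V1, (M ^ j) z ∈ V1 := by
    intro j
    induction j with
    | zero => intro z hz; exact hz
    | succ j ih =>
      intro z hz
      rw [pow_succ_apply']
      exact ih _ (h1 z hz)
  induction j with
  | zero => intro w hw; exact ⟨w, hw, by rw [pow_zero]; simp⟩
  | succ j ih =>
    intro w hw
    obtain ⟨z, hz, hzw⟩ := ih w hw
    obtain ⟨z', hz', hzz⟩ := h4 z hz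
    refine ⟨z', hz', ?_⟩
    have h5 : (M ^ (j + 1)) z' - w = (M ^ j) (M z' - z) + ((M ^ j) z - w) := by
      rw [pow_succ_apply', map_sub]
      abel
    rw [h5]
    exact V1.add_mem (h1' j _ hzz) hzw

/-- **Answer to Q2: yes.** If the ascent of `A` is finite, `B` is right Drazin invertible,
`p ≥ max {1, asc A, dsc B}` and (E) holds for `p`, then `M_C` is Drazin invertible for every
admissible `C`. -/
theorem result (A : H →L[ℂ] H) (B : K →L[ℂ] K) (p : ℕ) (hp : GoodP A B p) (hB : RightDrazin B)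
    (hE : CondE A B p) (C : K →L[ℂ] H) (hC : Admissible A B p C) :
    DrazinInvertible (MC A B C) := by
  obtain ⟨hp1, ⟨a, hap, ha⟩, b, hbp, hb⟩ := hp
  obtain ⟨b', hb', hcl⟩ := hB
  have hbb : b' = b := hb'.unique hb
  rw [hbb] at hcl
  obtain ⟨⟨J, hJ⟩, -⟩ := hC
  -- stability of the kernels and of the ranges
  have hker : kerPow A (p + 1) = kerPow A p := by
    rw [ker_stable A ha.1 hap, ker_stable A ha.1 (hap.trans (Nat.le_succ p))]
  have hran : ranPow B (p + 1) = ranPow B p := by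
    rw [ran_stable B hb.1 hbp, ran_stable B hb.1 (hbp.trans (Nat.le_succ p))]
  have hclp : IsClosed (ranPow B p : Set K) := by rw [ran_stable B hb.1 hbp]; exact hcl
  have hkcl : IsClosed (kerPow B 1 : Set K) := (B ^ 1).isClosed_ker
  have hT : spT B p = kerPow B 1 ⊓ ranPow B p := by
    unfold spT
    refine IsClosed.submodule_topologicalClosure_eq ?_
    rw [Submodule.coe_inf]
    exact hkcl.inter hclp
  have hS : IsClosed (spS A p : Set H) := hE.1
  have hcomp : CompleteSpace (spS A p) := hS.completeSpace_coe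
  obtain ⟨M, hM⟩ : ∃ M, M = MC A B C := ⟨_, rfl⟩
  have Mz : ∀ z, M z = (A z.1 + C z.2, B z.2) := fun z => by rw [hM, MC_apply]
  rw [← hM]
  -- the two subspaces
  obtain ⟨V1, hV1⟩ : ∃ V1 : Submodule ℂ (H × K), ∀ z, z ∈ V1 ↔ z.1 ∈ kerPow A p ∧ z.2 = 0 :=
    ⟨(kerPow A p).prod ⊥, fun z => by rw [Submodule.mem_prod, Submodule.mem_bot]⟩
  obtain ⟨V2, hV2⟩ : ∃ V2 : Submodule ℂ (H × K), ∀ z, z ∈ V2 ↔ z.2 ∈ ranPow B p :=
    ⟨(⊤ : Submodule ℂ H).prod (ranPow B p), fun z => by
      rw [Submodule.mem_prod]; exact ⟨fun h => h.2, fun h => ⟨trivial, h⟩⟩⟩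
  have hBK : ∀ y ∈ ranPow B p, B y ∈ ranPow B p := by
    rintro _ ⟨y, rfl⟩
    refine ⟨B y, ?_⟩
    show (B ^ p) (B y) = B ((B ^ p) y)
    rw [← pow_succ_apply', pow_succ_apply]
  have hAN : ∀ x ∈ kerPow A p, A x ∈ kerPow A p := by
    intro x hx
    rw [mem_kerPow] at hx ⊢
    rw [← pow_succ_apply', pow_succ_apply, hx, map_zero]
  have m1 : ∀ z ∈ V1, M z ∈ V1 := by
    intro z hz
    rw [hV1] at hz ⊢
    rw [Mz]
    refine ⟨?_, ?_⟩
    · show A z.1 + C z.2 ∈ _
      rw [hz.2, map_zero, add_zero]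
      exact hAN _ hz.1
    · show B z.2 = 0
      rw [hz.2, map_zero]
  have m1p : ∀ (j : ℕ) (z : H × K), z.2 = 0 → (M ^ j) z = ((A ^ j) z.1, 0) := by
    intro j
    induction j with
    | zero => intro z hz; exact Prod.ext rfl hz
    | succ j ih =>
      intro z hz
      rw [pow_succ_apply', Mz, hz, map_zero, map_zero, add_zero, ih _ rfl, pow_succ_apply']
  have n1 : ∀ z ∈ V1, (M ^ p) z = 0 := by
    intro z hz
    rw [hV1] at hz
    rw [m1p p z hz.2]
    exact Prod.ext hz.1 rfl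
  have m2 : ∀ z ∈ V2, M z ∈ V2 := by
    intro z hz
    rw [hV2] at hz ⊢
    rw [Mz]
    exact hBK _ hz
  have snd_pow : ∀ (j : ℕ) (z : H × K), ((M ^ j) z).2 = (B ^ j) z.2 := by
    intro j
    induction j with
    | zero => intro z; rfl
    | succ j ih => intro z; rw [pow_succ_apply', ih, Mz, pow_succ_apply']
  have n2 : ∀ z, (M ^ p) z ∈ V2 := by
    intro z
    rw [hV2, snd_pow]
    exact ⟨z.2, rfl⟩
  -- injectivity
  have h3 : ∀ z ∈ V2, M z ∈ V1 → z ∈ V1 := by
    intro z hz hMz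
    rw [hV1] at hMz ⊢
    rw [hV2] at hz
    rw [Mz] at hMz
    obtain ⟨h1, h2⟩ := hMz
    have hzT : z.2 ∈ spT B p := by
      rw [hT]
      refine ⟨?_, hz⟩
      show (B ^ 1) z.2 = 0
      rw [pow_one]
      exact h2
    have hCz : C z.2 = J ⟨z.2, hzT⟩ := hJ ⟨z.2, hzT⟩
    have h4 : C z.2 ∈ spS A p := by
      have h5 : C z.2 = (A z.1 + C z.2) - A z.1 := by abel
      rw [h5]
      refine Submodule.sub_mem _ (Submodule.mem_sup_right h1) (Submodule.mem_sup_left ⟨z.1, ?_⟩)
      show (A ^ 1) z.1 = A z.1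
      rw [pow_one]
    have h5 : (J ⟨z.2, hzT⟩ : H) = 0 := by
      rw [hCz] at h4
      exact inner_self_eq_zero.1 (Submodule.inner_right_of_mem_orthogonal h4 (J ⟨z.2, hzT⟩).2)
    have h6 : z.2 = 0 := by
      have h7 : J ⟨z.2, hzT⟩ = 0 := Subtype.ext h5
      exact congrArg Subtype.val ((map_eq_zero_iff J J.injective).1 h7)
    refine ⟨?_, h6⟩
    have h7 : A z.1 ∈ kerPow A p := by
      have : A z.1 + C z.2 ∈ kerPow A p := h1
      rwa [h6, map_zero, add_zero] at this
    rw [← hker, mem_kerPow, pow_succ_apply']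
    exact h7
  -- surjectivity
  have h4 : ∀ w ∈ V2, ∃ z ∈ V2, M z - w ∈ V1 := by
    intro w hw
    rw [hV2] at hw
    obtain ⟨y0, hy0, hy0'⟩ : ∃ y0 ∈ ranPow B p, B y0 = w.2 := by
      rw [← hran] at hw
      obtain ⟨y, hy⟩ := hw
      refine ⟨(B ^ p) y, ⟨y, rfl⟩, ?_⟩
      rw [← pow_succ_apply]
      exact hy
    obtain ⟨s, hs, s', hs', hu⟩ := (spS A p).exists_add_mem_mem_orthogonal (w.1 - C y0)
    obtain ⟨t, ht⟩ := J.surjective ⟨s', hs'⟩
    have htT : (t : K) ∈ kerPow B 1 ⊓ ranPow B p := hT ▸ t.2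
    have hBt : B t = 0 := by
      have h1 : (B ^ 1) t = 0 := htT.1
      rw [pow_one] at h1
      exact h1
    have hCt : C t = s' := by
      rw [hJ t, ht]
    obtain ⟨_, ⟨x, rfl⟩, n, hn, hxn⟩ := Submodule.mem_sup.1 hs
    have hx : (A ^ 1).toLinearMap x = A x := by
      show (A ^ 1) x = A x
      rw [pow_one]
    rw [hx] at hxn
    refine ⟨(x, y0 + t), ?_, ?_⟩
    · rw [hV2]
      exact Submodule.add_mem _ hy0 htT.2
    · rw [hV1, Mz]
      refine ⟨?_, ?_⟩
      · show A x + C (y0 + t) - w.1 ∈ kerPow A p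
        have h5 : A x + C (y0 + t) - w.1 = -n := by
          rw [map_add, hCt]
          have h6 : w.1 = s + s' + C y0 := by rw [← hu]; abel
          rw [h6, ← hxn]
          abel
        rw [h5]
        exact Submodule.neg_mem _ hn
      · show B (y0 + t) - w.2 = 0
        rw [map_add, hBt, hy0', add_zero, sub_self]
  refine ⟨?_, ?_⟩
  · obtain ⟨j, -, hj⟩ := hasAscent_of M (k := p + p) (by
      refine le_antisymm ?_ (kerPow_mono M (Nat.le_succ _))
      intro z hz
      rw [mem_kerPow, show p + p + 1 = (p + 1) + p by omega, pow_add_apply] at hz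
      rw [mem_kerPow, pow_add_apply]
      refine n1 _ (inj_iter m2 h3 (p + 1) _ (n2 z) ?_)
      rw [hz]
      exact V1.zero_mem)
    exact ⟨j, hj⟩
  · obtain ⟨j, -, hj⟩ := hasDescent_of M (k := p + p) (by
      refine le_antisymm (ranPow_anti M (Nat.le_succ _)) ?_
      rintro _ ⟨z, rfl⟩
      obtain ⟨z', -, hz'⟩ := surj_iter m1 h4 (p + 1) _ (n2 z)
      have h5 := n1 _ hz'
      rw [map_sub, sub_eq_zero, ← pow_add_apply, ← pow_add_apply] at h5
      refine ⟨z', ?_⟩
      rw [show p + p + 1 = p + (p + 1) by omega]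
      exact h5)
    exact ⟨j, hj⟩

end Pool.Agent.Results.MP_632fda_an.CompletionRightDrazin
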